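import Pool.Agent.KDT.StmtsK

/-!
# Squad KDT, row EOM (helper8): the lower bound at a node
-/

set_option autoImplicit false

noncomputable section

open Polynomial H58Q

namespace Pool.Agent.KDT.H8

open Pool.Agent.SZT Pool.Agent.SZT.B

theorem eom (ein : SZT.B.EinStmt) (rvl : SZT.B.RvlStmt) (mik : SZT.MikStatement) :
    EomStatement := by
  intro Ω L _ _ _ _ _ j w f θ s hjw hN hs hf h5 A B U W M hG hgen
  have hjv : ∀ x : Ω, ‖j x‖ = w x := fun x => (hjw x).symm
  have hM0 : 0 < M := hgen.pos
  have hspl : ∀ p : Polynomial Ω, (p.map j).Splits := fun p => (IsAlgClosed.splits p).map j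
  have hAm : (A.map j).Monic := hG.monic.map j
  have hroot : ∀ a ∈ (A.map j).roots, (A.map j).eval a = 0 := fun a ha => (mem_roots'.mp ha).2
  -- `A` divides `U + W B`
  have hdvd : A ∣ U + W * B := by
    rw [← mik Ω f A B U W hG.dvd]
    have h1 : (⟨U, W⟩ : Q Ω f) ∈ (MI f A B) ^ M := by
      rw [hgen.gen]
      exact Ideal.mem_span_singleton_self _
    exact Ideal.pow_le_self hM0.ne' h1
  have hU0 : ∀ a ∈ (A.map j).roots, (U.map j).eval a ≠ 0 := by
    intro a ha h
    obtain ⟨p, q, hpq⟩ := hgen.cop
    have h1 := congrArg (fun r : Polynomial Ω => (r.map j).eval a) hpq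
    simp only [Polynomial.map_add, Polynomial.map_mul, eval_add, eval_mul, Polynomial.map_one,
      eval_one] at h1
    rw [hroot a ha, h, mul_zero, mul_zero, add_zero] at h1
    exact zero_ne_one h1
  have hUW2 : (U.map j) ^ 2 - (f.map j) * (W.map j) ^ 2 = (A.map j) ^ M := by
    rw [← Polynomial.map_pow, ← Polynomial.map_pow, ← Polynomial.map_pow, ← Polynomial.map_mul,
      ← Polynomial.map_sub, hgen.pell]
  have hf0 : ∀ a ∈ (A.map j).roots, (f.map j).eval a ≠ 0 := by
    intro a ha h
    have h1 := congrArg (fun p : L[X] => p.eval a) hUW2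
    simp only [eval_sub, eval_pow, eval_mul] at h1
    rw [hroot a ha, h, zero_pow hM0.ne', zero_mul, sub_zero] at h1
    exact hU0 a ha (pow_eq_zero_iff (two_ne_zero) |>.mp h1)
  have hpts : ∀ a ∈ (A.map j).roots, (B.map j).eval a ^ 2 = (f.map j).eval a ∧
      (U.map j).eval a + (W.map j).eval a * (B.map j).eval a = 0 ∧ (U.map j).eval a ≠ 0 := by
    intro a ha
    refine ⟨?_, ?_, hU0 a ha⟩
    · have h2 : A.map j ∣ (B.map j) ^ 2 - f.map j := by
        have := Polynomial.map_dvd j hG.dvd
        rwa [Polynomial.map_sub, Polynomial.map_pow] at this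
      have h3 := Polynomial.eval_eq_zero_of_dvd_of_eval_eq_zero h2 (hroot a ha)
      rw [eval_sub, eval_pow] at h3
      exact sub_eq_zero.mp h3
    · have h2 : A.map j ∣ U.map j + W.map j * B.map j := by
        have := Polynomial.map_dvd j hdvd
        rwa [Polynomial.map_add, Polynomial.map_mul] at this
      have h3 := Polynomial.eval_eq_zero_of_dvd_of_eval_eq_zero h2 (hroot a ha)
      rw [eval_add, eval_mul] at h3
      exact h3
  have hE := ein L (f.map j) (fun k => j (θ k)) s (A.map j) (B.map j) (U.map j) (W.map j) M hN hs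
    hAm (hspl A) (by rw [hG.monic.natDegree_map, hG.two]) hgen.even hM0 hUW2 hpts
  unfold FF
  refine hE.trans (le_of_eq ?_)
  have h2L : (2 : L) ≠ 0 := by
    intro h
    have h' := hN.two
    rw [h, norm_zero] at h'
    exact zero_ne_one h'
  have h4L : (4 : L) ≠ 0 := by
    have : (4 : L) = 2 * 2 := by norm_num
    rw [this]; exact mul_ne_zero h2L h2L
  have hlog : ∀ (g : L → L), (∀ a ∈ (A.map j).roots, g a ≠ 0) →
      Real.log (((A.map j).roots.map fun a => ‖g a‖).prod) =
        ((A.map j).roots.map fun a => Real.log ‖g a‖).sum := by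
    intro g
    generalize (A.map j).roots = S
    induction S using Multiset.induction_on with
    | empty => intro _; simp
    | cons a S ih =>
      intro hg
      rw [Multiset.map_cons, Multiset.prod_cons, Multiset.map_cons, Multiset.sum_cons,
        Real.log_mul (norm_ne_zero_iff.mpr (hg a (Multiset.mem_cons_self a S))),
        ih (fun b hb => hg b (Multiset.mem_cons_of_mem hb))]
      refine Multiset.prod_ne_zero ?_
      rw [Multiset.mem_map]
      rintro ⟨b, hb, h0⟩
      exact hg b (Multiset.mem_cons_of_mem hb) (norm_eq_zero.mp h0)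
  unfold Lv
  rw [rvl Ω L j w A (4 * f) hjv hG.monic (hspl A), rvl Ω L j w A (2 * U) hjv hG.monic (hspl A)]
  have e4 : ∀ a : L, ((4 * f).map j).eval a = 4 * (f.map j).eval a := by
    intro a
    rw [Polynomial.map_mul, eval_mul]
    congr 1
    simp
  have e2 : ∀ a : L, ((2 * U).map j).eval a = 2 * (U.map j).eval a := by
    intro a
    rw [Polynomial.map_mul, eval_mul]
    congr 1
    simp
  simp only [e4, e2]
  rw [hlog (fun a => 4 * (f.map j).eval a) (fun a ha => mul_ne_zero h4L (hf0 a ha)),
    hlog (fun a => 2 * (U.map j).eval a) (fun a ha => mul_ne_zero h2L (hU0 a ha)),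
    Multiset.sum_map_sub, Multiset.sum_map_mul_left, Multiset.sum_map_mul_left]

end Pool.Agent.KDT.H8
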